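import Pool.Agent.Helper73.HM.St

/-! # HM module ML: the Mitchell order of the ultrafilters of two atoms -/

namespace Pool.Agent.Helper31.HM.ML

open Ordinal Cardinal ZFSet Order Pool.Agent.Helper73.HODC Pool.Agent.Helper73.HE
  Pool.Agent.Helper73.HM

theorem mem_UA {lam : Ordinal.{0}} {A : Set Ordinal.{0}} {X : ZFSet.{0}} :
    X ∈ UA lam A ↔ X ∈ hodPow lam ∧ ¬ Stat {a | a ∈ A ∧ a ∉ st X} lam := by
  rw [UA, ZFSet.mem_sep]

theorem stat_congr {S T : Set Ordinal.{0}} {κ : Ordinal.{0}}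
    (h : ∀ a < κ, a ∈ S ↔ a ∈ T) : Stat S κ ↔ Stat T κ :=
  ⟨fun h1 => h1.mono fun a ha hl => (h a hl).1 ha,
    fun h1 => h1.mono fun a ha hl => (h a hl).2 ha⟩

theorem hod_UA (h2 : StUD) {A : Set Ordinal.{0}} (hA : DPs A) (σ : Ordinal.{0}) :
    HOD (UA σ A) := by
  have hUA : DP (fun v => v 0 = UA (v 1).rank A) := h2 (fun _ => A) hA
  have h3 : DP (fun v => v 0 = UA σ A) :=
    dp_subst_at (Q := fun x v => v 0 = UA x A)
      (hUA.rename (fun n => if n = 0 then 1 else 0)) σ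
  refine HOD.intro _ (DP.od h3) fun y hy => ?_
  have h4 := (mem_UA.1 hy).1
  rw [hodPow, ZFSet.mem_sep] at h4
  exact h4.2

theorem mem_st_inter {X : ZFSet.{0}} {lam σ a : Ordinal.{0}} (hX : X ⊆ lam.toZFSet) :
    a ∈ st (X ∩ σ.toZFSet) ↔ a ∈ st X ∧ a < σ := by
  have h1 : X ∩ σ.toZFSet ⊆ σ.toZFSet := fun z hz => (ZFSet.mem_inter.1 hz).2
  rw [mem_st_iff h1, ZFSet.mem_inter, mem_st_iff hX]
  refine and_congr Iff.rfl ?_
  constructor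
  · intro h
    obtain ⟨b, hb, h2⟩ := mem_toZFSet_iff.1 h
    rwa [← toZFSet_injective h2]
  · intro h
    exact mem_toZFSet_iff.2 ⟨a, h, rfl⟩

theorem inter_mem_hodPow {X : ZFSet.{0}} {lam : Ordinal.{0}} (hX : X ∈ hodPow lam)
    (σ : Ordinal.{0}) : X ∩ σ.toZFSet ∈ hodPow σ := by
  obtain ⟨h1, h2⟩ := mem_hodPow.1 hX
  have h3 : X ∩ σ.toZFSet ⊆ σ.toZFSet := fun z hz => (ZFSet.mem_inter.1 hz).2
  rw [mem_hodPow]
  refine ⟨h3, ?_⟩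
  have h4 : X ∩ σ.toZFSet = ordSet σ (st X) := by
    refine ext_st h3 (ordSet_sub σ _) fun a => ?_
    rw [mem_st_inter h1, mem_st_ordSet, and_comm]
  rw [h4]
  exact od_ordSet (dps_ordSet h1 h2) σ

theorem inter_mem_UA {X : ZFSet.{0}} {lam : Ordinal.{0}} (hX : X ∈ hodPow lam)
    (A : Set Ordinal.{0}) (σ : Ordinal.{0}) :
    X ∩ σ.toZFSet ∈ UA σ A ↔ ¬ Stat {a | a ∈ A ∧ a ∉ st X} σ := by
  rw [mem_UA]
  have h1 := (mem_hodPow.1 hX).1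
  constructor
  · rintro ⟨-, h⟩ h'
    refine h ((stat_congr fun a ha => ?_).1 h')
    show (a ∈ A ∧ a ∉ st X) ↔ (a ∈ A ∧ a ∉ st (X ∩ σ.toZFSet))
    rw [mem_st_inter h1]
    exact and_congr Iff.rfl (not_congr ⟨fun h => ⟨h, ha⟩, fun h => h.1⟩)
  · intro h
    refine ⟨inter_mem_hodPow hX σ, fun h' => h ((stat_congr fun a ha => ?_).1 h')⟩
    show (a ∈ A ∧ a ∉ st (X ∩ σ.toZFSet)) ↔ (a ∈ A ∧ a ∉ st X)
    rw [mem_st_inter h1]
    exact and_congr Iff.rfl (not_congr ⟨fun h => h.1, fun h => ⟨h, ha⟩⟩)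

/-- the limit points of a club form a club -/
theorem club_lim {κ : Ordinal.{0}} (hκ : ℵ₀ < κ.cof) {C : Set Ordinal.{0}} (hC : Club C κ) :
    Club {σ | UnbIn C σ} κ := by
  refine ⟨?_, ?_⟩
  · intro a ha
    have hch : ∀ x : Ordinal.{0}, ∃ y, x < κ → y ∈ C ∧ x < y ∧ y < κ := by
      intro x
      by_cases hx : x < κ
      · obtain ⟨y, hy1, hy2, hy3⟩ := hC.1 x hx
        exact ⟨y, fun _ => ⟨hy1, hy2, hy3⟩⟩
      · exact ⟨0, fun h' => absurd h' hx⟩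
    choose f hf using hch
    obtain ⟨s, has, hsκ, -, hs⟩ := exists_lim hκ f (fun x hx => (hf x hx).2) a ha
    refine ⟨s, ?_, has, hsκ⟩
    intro b hb
    obtain ⟨x, hbx, hxκ, hxs⟩ := hs b hb
    exact ⟨f x, (hf x hxκ).1, hbx.trans (hf x hxκ).2.1, hxs⟩
  · intro a _ _ hu b hb
    obtain ⟨x, hx, h1, h2⟩ := hu b hb
    obtain ⟨y, hy, h3, h4⟩ := hx b h1
    exact ⟨y, hy, h3, h4.trans h2⟩

/-- a nonstationary set reflects to a nonstationary set almost everywhere -/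
theorem not_stat_refl {κ : Ordinal.{0}} (hκ : ℵ₀ < κ.cof) {N B : Set Ordinal.{0}}
    (hN : ¬ Stat N κ) : ¬ Stat {σ | σ ∈ B ∧ Stat N σ} κ := by
  intro h
  simp only [Stat] at hN
  push Not at hN
  obtain ⟨C, hC, hC'⟩ := hN
  obtain ⟨σ, ⟨-, hσ⟩, hσC, hσκ⟩ := h _ (club_lim hκ hC)
  have h1 : Club C σ := ⟨hσC, fun a ha ha0 hu => hC.2 a (ha.trans hσκ) ha0 hu⟩
  obtain ⟨a, haN, haC, haσ⟩ := hσ C h1
  exact absurd (haσ.trans hσκ) (not_lt.mpr (hC' a haN haC))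

theorem ml (_h1 : StHP) (h2 : StUD) (h3 : StGR) : StML := by
  intro c A B hc hc' hA hB hAc hBc hatA hatB hrefl
  have hκ : ℵ₀ < c.ord.cof := by rw [hc.cof_ord]; exact hc'
  have hUA : DP (fun v => v 0 = UA (v 1).rank A) := h2 (fun _ => A) hA
  refine ⟨fun σ => UA σ A, h3 c.ord (fun σ => UA σ A) hUA (fun σ _ => hod_UA h2 hA σ), ?_⟩
  intro X hX
  obtain ⟨hXs, hXo⟩ := mem_hodPow.1 hX
  have hZ : {σ | X ∩ σ.toZFSet ∈ UA σ A} = {σ | ¬ Stat {a | a ∈ A ∧ a ∉ st X} σ} := by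
    ext σ
    exact inter_mem_UA hX A σ
  have hXd : DPs (st X) := dps_ordSet hXs hXo
  have hN : DP (fun v => (v 0).rank ∈ A ∧ (v 0).rank ∉ st X) := DP.and hA (DP.not hXd)
  have hZd : DPs {σ | ¬ Stat {a | a ∈ A ∧ a ∉ st X} σ} := by
    have h4 : DP (fun v => Stat {a | a ∈ A ∧ a ∉ st X} (v 0).rank) :=
      DP.statV (Q := fun a _ => a ∈ A ∧ a ∉ st X) hN 0
    exact DP.not h4
  show X ∈ UA c.ord A ↔ ordSet c.ord {σ | X ∩ σ.toZFSet ∈ UA σ A} ∈ UA c.ord B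
  rw [hZ, mem_UA, mem_UA]
  have h5 : Stat {σ | σ ∈ B ∧ σ ∉ st (ordSet c.ord {σ | ¬ Stat {a | a ∈ A ∧ a ∉ st X} σ})} c.ord ↔
      Stat {σ | σ ∈ B ∧ Stat {a | a ∈ A ∧ a ∉ st X} σ} c.ord := by
    refine stat_congr fun σ hσ => ?_
    show (σ ∈ B ∧ σ ∉ st (ordSet c.ord {σ | ¬ Stat {a | a ∈ A ∧ a ∉ st X} σ})) ↔
      (σ ∈ B ∧ Stat {a | a ∈ A ∧ a ∉ st X} σ)
    rw [mem_st_ordSet]
    refine and_congr Iff.rfl ?_
    constructor
    · intro h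
      by_contra h'
      exact h ⟨hσ, h'⟩
    · rintro h ⟨-, h'⟩
      exact h' h
  rw [h5]
  constructor
  · rintro ⟨-, h⟩
    exact ⟨ordSet_mem_hodPow _ _ hZd, not_stat_refl hκ h⟩
  · rintro ⟨-, h⟩
    refine ⟨hX, fun h' => ?_⟩
    have h6 : ¬ Stat {a | a ∈ A ∧ a ∈ st X} c.ord := fun h'' => hatA.2 X hXo hXs ⟨h'', h'⟩
    have h7 := not_stat_refl (B := B) hκ h6
    rcases stat_or hκ (A := {σ | Stat {a | a ∈ A ∧ a ∈ st X} σ}) hatB.1 with h8 | h8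
    · exact h7 h8
    · refine h (h8.mono fun σ hσ _ => ⟨hσ.1, ?_⟩)
      obtain ⟨h9, h10⟩ := hrefl σ hσ.1
      rcases stat_or h9 (A := st X) h10 with h11 | h11
      · exact absurd h11 hσ.2
      · exact h11

end Pool.Agent.Helper31.HM.ML
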